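import Pool.Agent.Run7.h35.NEG.Iface

/-!
# MP_6c92e3_an, piece PARAM: towers with all the standing assumptions exist
-/

set_option autoImplicit false

namespace Pool.Agent.Run7.h324.NEG

open Run7.h35.NEG Finset Filter Asymptotics

theorem exists_large (M : ℕ) (B : ℕ) : ∃ a : ℕ, B ≤ a ∧ a ^ M ≤ 2 ^ a := by
  have h1 := isLittleO_pow_const_const_pow_of_one_lt (R := ℝ) M (r := 2) (by norm_num)
  have h2 : ∀ᶠ a : ℕ in atTop, ‖((a : ℝ) ^ M)‖ ≤ 1 * ‖((2 : ℝ) ^ a)‖ := h1.bound one_pos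
  obtain ⟨a, ha, hB⟩ := (h2.and (eventually_ge_atTop B)).exists
  refine ⟨a, hB, ?_⟩
  rw [one_mul, Real.norm_of_nonneg (by positivity), Real.norm_of_nonneg (by positivity)] at ha
  exact_mod_cast ha

/-- exponents -/
def ex (g : ℕ) : ℕ → ℕ
  | 0 => 1
  | s + 1 => ex g s * 30 * g + 1

theorem ex_pos (g s : ℕ) : 1 ≤ ex g s := by
  cases s with
  | zero => exact le_rfl
  | succ s => simp [ex]

theorem main_PARAM : S_RM → S_PARAM := by
  intro hRM K top g H ε hH hε hε1
  obtain ⟨C₀, hC, hrm⟩ := hRM H ε hH hε hε1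
  refine ⟨C₀, hC, fun Γ => ?_⟩
  obtain ⟨a, haB, ha⟩ := exists_large (ex g top * g) (max (max Γ ⌈C₀⌉₊) 1)
  have haΓ : Γ ≤ a := (le_max_left _ _).trans ((le_max_left _ _).trans haB)
  have haC : C₀ ≤ a := (Nat.le_ceil C₀).trans (by
    exact_mod_cast (le_max_right Γ ⌈C₀⌉₊).trans ((le_max_left _ _).trans haB))
  have ha1 : 1 ≤ a := (le_max_right _ _).trans haB
  let k : ℕ → ℕ := fun s => a ^ ex g s
  have hk : ∀ s, a ≤ k s := fun s => by
    calc a = a ^ 1 := (pow_one a).symm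
      _ ≤ a ^ ex g s := Nat.pow_le_pow_right ha1 (ex_pos g s)
  let n : ℕ → ℕ := fun s => if s < top then k s ^ 30 else 2 ^ a
  have hn : ∀ s, s < top → n s = k s ^ 30 := fun s hs => by simp [n, hs]
  have hntop : n top = 2 ^ a := by simp [n]
  have hG : ∀ s, ∃ G : Fin (n s) → Fin (2 ^ a) → ℝ,
      (s < top → RMProp H ε C₀ a (n s) (k s ^ 3) (k s ^ 10) G) ∧
      (s = top → ∀ ν μ, ∑ b, G b ν * G b μ = if ν = μ then 1 else 0) := by
    intro s
    by_cases hs : s < top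
    · have hks : 1 ≤ k s := ha1.trans (hk s)
      have hineq : C₀ * a * (k s ^ 3 : ℕ) * (k s ^ 10 : ℕ) ≤ (n s : ℕ) := by
        rw [hn s hs]
        push_cast
        have h1 : (1 : ℝ) ≤ k s := by exact_mod_cast hks
        have h2 : (a : ℝ) ≤ k s := by exact_mod_cast hk s
        have h3 : C₀ ≤ k s := haC.trans h2
        have h0 : (0 : ℝ) ≤ C₀ := by linarith
        calc C₀ * a * (k s : ℝ) ^ 3 * (k s : ℝ) ^ 10
            ≤ (k s : ℝ) * (k s : ℝ) * (k s : ℝ) ^ 3 * (k s : ℝ) ^ 10 := by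
              gcongr
          _ = (k s : ℝ) ^ 15 := by ring
          _ ≤ (k s : ℝ) ^ 30 := pow_le_pow_right₀ h1 (by norm_num)
      obtain ⟨G, hG⟩ := hrm a (n s) (k s ^ 3) (k s ^ 10) haC (Nat.one_le_pow _ _ hks)
        (Nat.one_le_pow _ _ hks) hineq
      exact ⟨G, fun _ => hG, fun h => absurd h (by omega)⟩
    · by_cases ht : s = top
      · subst ht
        refine ⟨fun b ν => if Fin.cast hntop b = ν then 1 else 0, fun h => absurd h hs, ?_⟩
        intro _ ν μ
        have h2 := Equiv.sum_comp (finCongr hntop) (fun b' : Fin (2 ^ a) =>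
          (if b' = ν then (1 : ℝ) else 0) * (if b' = μ then 1 else 0))
        have h3 : (∑ b' : Fin (2 ^ a), (if b' = ν then (1 : ℝ) else 0) *
            (if b' = μ then 1 else 0)) = if ν = μ then 1 else 0 := by
          simp [eq_comm]
        rw [← h3, ← h2]
        rfl
      · exact ⟨fun _ _ => 0, fun h => absurd h hs, fun h => absurd h ht⟩
  choose G hG1 hG2 using hG
  refine ⟨⟨a, top, K, n, k, G⟩, rfl, rfl, ?_⟩
  refine ⟨haΓ, ha1, hk, hn, ?_, ?_, hG1, hG2 top rfl⟩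
  · intro s hs
    have hs' : s < top := hs
    show n s ^ g ≤ k (s + 1)
    rw [hn s hs']
    simp only [k, ex]
    rw [← pow_mul, ← pow_mul]
    apply Nat.pow_le_pow_right ha1
    rw [mul_assoc]
    omega
  · show k top ^ g ≤ 2 ^ a
    simp only [k]
    rw [← pow_mul]
    exact ha

end Pool.Agent.Run7.h324.NEG
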